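import Pool.Agent.Work.MP_768e99_co.Core

set_option autoImplicit false
set_option linter.unusedSectionVars false
set_option linter.unusedSimpArgs false
set_option linter.unusedVariables false

namespace Pool.Agent.Work.MP_768e99_co

variable {V : Type*} {G : SimpleGraph V}

open Classical in
/-- The partition argument of Lovasz. -/
lemma lovasz [Finite V] (P : Finset V) (m d : ℕ) (hm : 0 < m)
    (hdeg : ∀ x ∈ P, (P.filter (fun y => G.Adj x y)).card < m * (d + 1)) :
    ∃ c : V → Fin m, ∀ x ∈ P, (P.filter (fun y => G.Adj x y ∧ c y = c x)).card ≤ d := by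
  haveI : Nonempty (Fin m) := ⟨⟨0, hm⟩⟩
  let f : (V → Fin m) → ℕ := fun c =>
    ∑ a ∈ P, ∑ b ∈ P, if G.Adj a b ∧ c a = c b then 1 else 0
  obtain ⟨c, hc⟩ := Finite.exists_min f
  refine ⟨c, ?_⟩
  intro x hx
  by_contra hcon
  push Not at hcon
  have hsum : (P.filter (fun y => G.Adj x y)).card =
      ∑ k : Fin m, (P.filter (fun y => G.Adj x y ∧ c y = k)).card := by
    rw [Finset.card_eq_sum_card_fiberwise (f := c) (t := Finset.univ) (by intro y _; simp)]
    refine Finset.sum_congr rfl ?_
    intro k _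
    rw [Finset.filter_filter]
  obtain ⟨k, hk⟩ : ∃ k : Fin m, (P.filter (fun y => G.Adj x y ∧ c y = k)).card ≤ d := by
    by_contra hall
    push Not at hall
    have : ∑ k : Fin m, (d + 1) ≤ ∑ k : Fin m, (P.filter (fun y => G.Adj x y ∧ c y = k)).card :=
      Finset.sum_le_sum fun k _ => hall k
    rw [← hsum] at this
    simp at this
    exact absurd (hdeg x hx) (by omega)
  -- compare potentials
  have key : ∀ e : V → Fin m, f e =
      (∑ a ∈ P.erase x, ∑ b ∈ P.erase x, if G.Adj a b ∧ e a = e b then 1 else 0) +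
        2 * ((P.erase x).filter (fun y => G.Adj x y ∧ e y = e x)).card := by
    intro e
    have h1 : ∀ g : V → ℕ, ∑ a ∈ P, g a = g x + ∑ a ∈ P.erase x, g a := fun g =>
      (Finset.add_sum_erase P g hx).symm
    simp only [f]
    rw [h1]
    have h2 : ∀ a, ∑ b ∈ P, (if G.Adj a b ∧ e a = e b then 1 else 0) =
        (if G.Adj a x ∧ e a = e x then 1 else 0) +
        ∑ b ∈ P.erase x, (if G.Adj a b ∧ e a = e b then 1 else 0) := fun a => h1 _
    rw [Finset.sum_congr rfl fun a _ => h2 a, h2 x, Finset.sum_add_distrib]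
    have h3 : (if G.Adj x x ∧ e x = e x then 1 else 0 : ℕ) = 0 := by
      rw [if_neg]; rintro ⟨h, _⟩; exact G.irrefl h
    have h4 : ∑ b ∈ P.erase x, (if G.Adj x b ∧ e x = e b then 1 else 0 : ℕ) =
        ((P.erase x).filter (fun y => G.Adj x y ∧ e y = e x)).card := by
      rw [Finset.card_filter]
      refine Finset.sum_congr rfl fun b _ => ?_
      simp only [eq_comm]
    have h5 : ∑ b ∈ P.erase x, (if G.Adj b x ∧ e b = e x then 1 else 0 : ℕ) =
        ((P.erase x).filter (fun y => G.Adj x y ∧ e y = e x)).card := by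
      rw [Finset.card_filter]
      refine Finset.sum_congr rfl fun b _ => ?_
      simp only [G.adj_comm b x]
    rw [h3, h4, h5]; ring
  have hlt : f (Function.update c x k) < f c := by
    rw [key, key]
    have hR : (∑ a ∈ P.erase x, ∑ b ∈ P.erase x,
        if G.Adj a b ∧ Function.update c x k a = Function.update c x k b then 1 else 0) =
        (∑ a ∈ P.erase x, ∑ b ∈ P.erase x, if G.Adj a b ∧ c a = c b then 1 else 0) := by
      refine Finset.sum_congr rfl fun a ha => Finset.sum_congr rfl fun b hb => ?_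
      rw [Function.update_of_ne (Finset.ne_of_mem_erase ha),
        Function.update_of_ne (Finset.ne_of_mem_erase hb)]
    rw [hR]
    have hN : ((P.erase x).filter (fun y => G.Adj x y ∧
        Function.update c x k y = Function.update c x k x)).card ≤ d := by
      refine le_trans (Finset.card_le_card ?_) hk
      intro y hy
      rw [Finset.mem_filter] at hy ⊢
      obtain ⟨hy1, hy2, hy3⟩ := hy
      rw [Function.update_of_ne (Finset.ne_of_mem_erase hy1), Function.update_self] at hy3
      exact ⟨Finset.mem_of_mem_erase hy1, hy2, hy3⟩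
    have hO : d < ((P.erase x).filter (fun y => G.Adj x y ∧ c y = c x)).card := by
      refine lt_of_lt_of_le hcon (Finset.card_le_card ?_)
      intro y hy
      rw [Finset.mem_filter] at hy ⊢
      refine ⟨Finset.mem_erase.2 ⟨hy.2.1.ne', hy.1⟩, hy.2⟩
    omega
  exact absurd (hc (Function.update c x k)) (by omega)

/-- the base case `r = 1` -/
theorem base_one [Finite V] {P : Set V} {s d m : ℕ} (hm : 0 < m) (hms : s ≤ m * (d + 1))
    (h : ¬ KM G P P 1 s) : ColOn G P (Fin m) d := by
  classical
  set F : Finset V := (Set.toFinite P).toFinset with hF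
  have hFm : ∀ x, x ∈ F ↔ x ∈ P := fun x => by rw [hF, Set.Finite.mem_toFinset]
  obtain ⟨c, hc⟩ := lovasz (G := G) F m d hm (by
    intro x hx
    refine lt_of_lt_of_le ?_ hms
    by_contra hcon
    push Not at hcon
    apply h
    obtain ⟨T, hT, hTc⟩ := Finset.exists_subset_card_eq hcon
    have e : Fin s ≃ T := (Fintype.equivFinOfCardEq (by simpa using hTc)).symm
    refine ⟨fun _ => {x}, fun j => {(e j : V)}, ?_, ?_, ?_, ?_, ?_, ?_, ?_, ?_⟩
    · intro i; simpa using (hFm x).1 hx
    · intro j
      have := hT (e j).2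
      rw [Finset.mem_filter] at this
      simpa using (hFm _).1 this.1
    · intro i; exact Conn.singleton x
    · intro j; exact Conn.singleton _
    · intro i i' hii; exact absurd (Subsingleton.elim i i') hii
    · intro j j' hjj
      rw [Set.disjoint_singleton]
      intro heq
      exact hjj (e.injective (Subtype.ext heq))
    · intro i j
      have := hT (e j).2
      rw [Finset.mem_filter] at this
      rw [Set.disjoint_singleton]
      exact this.2.ne
    · intro i j
      have := hT (e j).2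
      rw [Finset.mem_filter] at this
      exact ⟨x, rfl, _, rfl, this.2⟩)
  refine ⟨c, ?_⟩
  intro x hx
  refine le_trans (le_of_eq ?_) (hc x ((hFm x).2 hx))
  rw [← Set.ncard_coe_finset]
  congr 1
  ext y
  simp [hFm]

/-- The one-root induction. -/
theorem one_root [Finite V] {Q : Set V} {r s d : ℕ} {κ : Type*} [Nonempty κ]
    (hinner : ∀ P : Set V, P ⊆ Q → ¬ KM G P P r s → ColOn G P κ d)
    (hG : ¬ KM G Q Q (r + 1) s) :
    ∀ (n : ℕ) (C U : Set V), C.ncard ≤ n → C ⊆ Q → U ⊆ Q → Disjoint C U →
      (U = ∅ ∨ Conn G U) → ∀ a : Fin 2,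
      ∃ c : V → Fin 2 × κ,
        (∀ x ∈ C, ∀ u ∈ U, G.Adj x u → (c x).1 ≠ a) ∧
        ∀ x ∈ C, {y | y ∈ C ∧ G.Adj x y ∧ c y = c x}.ncard ≤ d := by
  classical
  intro n
  induction n with
  | zero =>
    intro C U hC hCQ hUQ hCU hU a
    have hC0 : C = ∅ := by
      rw [Nat.le_zero, Set.ncard_eq_zero (Set.toFinite _)] at hC; exact hC
    subst hC0
    obtain ⟨k⟩ := ‹Nonempty κ›
    exact ⟨fun _ => (0, k), by simp, by simp⟩
  | succ n ih =>
    intro C U hC hCQ hUQ hCU hU a
    obtain ⟨k0⟩ := ‹Nonempty κ›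
    by_cases hC0 : C = ∅
    · subst hC0
      exact ⟨fun _ => (0, k0), by simp, by simp⟩
    obtain ⟨x0, hx0⟩ := Set.nonempty_iff_ne_empty.2 hC0
    have hsub : ∀ D : Set V, D ⊆ C → (∃ x ∈ C, x ∉ D) → D.ncard ≤ n := by
      rintro D hD ⟨x, hx, hxD⟩
      have : D.ncard < C.ncard :=
        Set.ncard_lt_ncard ⟨hD, fun h => hxD (h hx)⟩ (Set.toFinite _)
      omega
    by_cases hUadj : ∃ x ∈ C, ∃ u ∈ U, G.Adj x u
    swap
    · push Not at hUadj
      obtain ⟨c, h1, h3⟩ := ih (C \ {x0}) {x0} (hsub _ Set.sdiff_subset ⟨x0, hx0, by simp⟩)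
        (Set.sdiff_subset.trans hCQ) (by simpa using hCQ hx0)
        (by simp) (Or.inr (Conn.singleton x0)) a
      refine ⟨Function.update c x0 (a, k0), ?_, ?_⟩
      · intro x hx w hw hadj
        exact absurd hadj (hUadj x hx w hw)
      · intro x hx
        by_cases hxx : x = x0
        · subst hxx
          have : {y | y ∈ C ∧ G.Adj x y ∧ Function.update c x (a, k0) y =
              Function.update c x (a, k0) x} = ∅ := by
            ext y
            simp only [Set.mem_setOf_eq, Set.mem_empty_iff_false, iff_false, not_and]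
            intro hy hadj hcol
            have hyx : y ≠ x := hadj.ne'
            rw [Function.update_of_ne hyx, Function.update_self] at hcol
            exact h1 y ⟨hy, hyx⟩ x rfl hadj.symm (by rw [hcol])
          rw [this]; simp
        · have : {y | y ∈ C ∧ G.Adj x y ∧ Function.update c x0 (a, k0) y =
              Function.update c x0 (a, k0) x} ⊆ {y | y ∈ C \ {x0} ∧ G.Adj x y ∧ c y = c x} := by
            rintro y ⟨hy, hadj, hcol⟩
            rw [Function.update_of_ne hxx] at hcol
            by_cases hyx : y = x0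
            · subst hyx
              rw [Function.update_self] at hcol
              exact absurd (by rw [← hcol]) (h1 x ⟨hx, hxx⟩ y rfl hadj)
            · rw [Function.update_of_ne hyx] at hcol
              exact ⟨⟨hy, hyx⟩, hadj, hcol⟩
          exact (Set.ncard_le_ncard this (Set.toFinite _)).trans (h3 x ⟨hx, hxx⟩)
    obtain ⟨xu, hxu, u1, hu1, hxu1⟩ := hUadj
    have hU' : Conn G U := by
      rcases hU with h | h
      · rw [h] at hu1; exact absurd hu1 (Set.notMem_empty _)
      · exact h
    set P : Set V := {p | p ∈ C ∧ ∃ u ∈ U, G.Adj p u} with hP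
    have hPC : P ⊆ C := fun x hx => hx.1
    have hPU : ∀ p ∈ P, ∃ u ∈ U, G.Adj p u := fun p hp => hp.2
    have hPKM : ¬ KM G P P r s := by
      intro hK
      have h1 := hK.add hU' (hCU.mono_left hPC).symm (hCU.mono_left hPC).symm hPU
      exact hG (h1.mono (Set.union_subset hUQ (hPC.trans hCQ)) (hPC.trans hCQ))
    obtain ⟨cP, hcP⟩ := hinner P (hPC.trans hCQ) hPKM
    obtain ⟨t, hta⟩ : ∃ t : Fin 2, t ≠ a := by
      revert a; decide
    obtain ⟨cE, e1, e3⟩ := ih (C \ P) (U ∪ P)
      (hsub _ Set.sdiff_subset ⟨xu, hxu, fun h => h.2 ⟨hxu, u1, hu1, hxu1⟩⟩)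
      (Set.sdiff_subset.trans hCQ) (Set.union_subset hUQ (hPC.trans hCQ))
      (by
        rw [Set.disjoint_union_right]
        exact ⟨hCU.mono_left Set.sdiff_subset, Set.disjoint_left.2 fun x hx hx' => hx.2 hx'⟩)
      (Or.inr (hU'.union hPU)) t
    let c : V → Fin 2 × κ := fun x => if x ∈ P then (t, cP x) else cE x
    have cP' : ∀ x ∈ P, c x = (t, cP x) := fun x hx => if_pos hx
    have cE' : ∀ x, x ∉ P → c x = cE x := fun x hx => if_neg hx
    refine ⟨c, ?_, ?_⟩
    · intro x hx u hu hadj
      have hxP : x ∈ P := ⟨hx, u, hu, hadj⟩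
      rw [cP' x hxP]; exact hta
    · intro x hx
      by_cases h : x ∈ P
      · refine (Set.ncard_le_ncard ?_ (Set.toFinite _)).trans (hcP x h)
        rintro y ⟨hy, hadj, hcol⟩
        rw [cP' x h] at hcol
        by_cases h' : y ∈ P
        · rw [cP' y h', Prod.mk.injEq] at hcol
          exact ⟨h', hadj, hcol.2⟩
        · rw [cE' y h'] at hcol
          exact absurd (by rw [hcol]) (e1 y ⟨hy, h'⟩ x (Or.inr h) hadj.symm)
      · refine (Set.ncard_le_ncard ?_ (Set.toFinite _)).trans (e3 x ⟨hx, h⟩)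
        rintro y ⟨hy, hadj, hcol⟩
        rw [cE' x h] at hcol
        by_cases h' : y ∈ P
        · rw [cP' y h'] at hcol
          exact absurd (by rw [← hcol]) (e1 x ⟨hx, h⟩ y (Or.inr h') hadj)
        · rw [cE' y h'] at hcol
          exact ⟨⟨hy, h'⟩, hadj, hcol⟩

theorem step_one [Finite V] {Q : Set V} {r s d : ℕ} {κ : Type*} [Nonempty κ]
    (hinner : ∀ P : Set V, P ⊆ Q → ¬ KM G P P r s → ColOn G P κ d)
    (hG : ¬ KM G Q Q (r + 1) s) : ColOn G Q (Fin 2 × κ) d := by
  obtain ⟨c, _, h⟩ := one_root hinner hG Q.ncard Q ∅ le_rfl subset_rfl (by simp) (by simp)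
    (Or.inl rfl) 0
  exact ⟨c, h⟩

end Pool.Agent.Work.MP_768e99_co
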