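import Pool.Agent.Work.MP_768e99_co.Defs

set_option autoImplicit false
set_option linter.unusedSectionVars false
set_option linter.unusedSimpArgs false
set_option linter.unusedVariables false

namespace Pool.Agent.Work.MP_768e99_co

variable {V : Type*} {G : SimpleGraph V}

/-- a nonempty set with no proper nonempty subset closed under adjacency -/
def Conn (G : SimpleGraph V) (S : Set V) : Prop :=
  S.Nonempty ∧ ∀ T : Set V, T ⊆ S → T.Nonempty → (∀ x ∈ T, ∀ y ∈ S, G.Adj x y → y ∈ T) → S ⊆ T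

lemma Conn.connected {S : Set V} (h : Conn G S) : (G.induce S).Connected := by
  obtain ⟨⟨x0, hx0⟩, hT⟩ := h
  haveI : Nonempty S := ⟨⟨x0, hx0⟩⟩
  refine ⟨?_⟩
  intro a b
  let T : Set V := {z | ∃ hz : z ∈ S, (G.induce S).Reachable a ⟨z, hz⟩}
  have hTS : T ⊆ S := fun z hz => hz.1
  have := hT T hTS ⟨a, a.2, SimpleGraph.Reachable.refl _⟩ (by
    rintro x ⟨hx, hr⟩ y hy hxy
    refine ⟨hy, hr.trans (SimpleGraph.Adj.reachable ?_)⟩
    exact hxy)
  exact (this b.2).2

lemma Conn.singleton (x : V) : Conn G {x} := by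
  refine ⟨⟨x, rfl⟩, ?_⟩
  rintro T hT ⟨t, ht⟩ _ y hy
  have := hT ht
  rw [Set.mem_singleton_iff] at this hy
  rw [hy, ← this]; exact ht

/-- adding vertices adjacent to a connected set -/
lemma Conn.union {U X : Set V} (h : Conn G U) (hX : ∀ x ∈ X, ∃ u ∈ U, G.Adj x u) :
    Conn G (U ∪ X) := by
  refine ⟨h.1.mono Set.subset_union_left, ?_⟩
  rintro T hT ⟨t, ht⟩ hc
  have hU : ∃ u ∈ U, u ∈ T := by
    rcases hT ht with h' | h'
    · exact ⟨t, h', ht⟩
    · obtain ⟨u, hu, hadj⟩ := hX t h'
      exact ⟨u, hu, hc t ht u (Or.inl hu) hadj⟩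
  obtain ⟨u, hu, huT⟩ := hU
  have hUT : U ⊆ T := by
    have := h.2 (T ∩ U) Set.inter_subset_right ⟨u, huT, hu⟩ (by
      rintro x ⟨hx, hxU⟩ y hy hxy
      exact ⟨hc x hx y (Or.inl hy) hxy, hy⟩)
    exact fun x hx => (this hx).1
  rintro x (hx | hx)
  · exact hUT hx
  · obtain ⟨u', hu', hadj⟩ := hX x hx
    exact hc u' (hUT hu') x (Or.inr hx) hadj.symm

/-- biclique minors with the sides in prescribed sets -/
def KM (G : SimpleGraph V) (Q P : Set V) (r s : ℕ) : Prop :=
  ∃ A : Fin r → Set V, ∃ B : Fin s → Set V,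
    (∀ i, A i ⊆ Q) ∧ (∀ j, B j ⊆ P) ∧ (∀ i, Conn G (A i)) ∧ (∀ j, Conn G (B j)) ∧
    (∀ i i', i ≠ i' → Disjoint (A i) (A i')) ∧ (∀ j j', j ≠ j' → Disjoint (B j) (B j')) ∧
    (∀ i j, Disjoint (A i) (B j)) ∧ ∀ i j, ∃ x ∈ A i, ∃ y ∈ B j, G.Adj x y

lemma KM.mono {Q P Q' P' : Set V} {r s : ℕ} (h : KM G Q P r s) (hQ : Q ⊆ Q') (hP : P ⊆ P') :
    KM G Q' P' r s := by
  obtain ⟨A, B, h1, h2, h3⟩ := h
  exact ⟨A, B, fun i => (h1 i).trans hQ, fun j => (h2 j).trans hP, h3⟩

lemma KM.add {Q P U : Set V} {r s : ℕ} (h : KM G Q P r s) (hU : Conn G U)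
    (hUQ : Disjoint U Q) (hUP : Disjoint U P) (hadj : ∀ p ∈ P, ∃ u ∈ U, G.Adj p u) :
    KM G (U ∪ Q) P (r + 1) s := by
  obtain ⟨A, B, h1, h2, h3, h4, h5, h6, h7, h8⟩ := h
  refine ⟨Fin.cons U A, B, ?_, h2, ?_, h4, ?_, h6, ?_, ?_⟩
  · intro i
    refine Fin.cases ?_ (fun i => ?_) i
    · simp
    · simpa using (h1 i).trans Set.subset_union_right
  · intro i
    refine Fin.cases ?_ (fun i => ?_) i
    · simpa using hU
    · simpa using h3 i
  · intro i i'
    refine Fin.cases ?_ (fun i => ?_) i <;> refine Fin.cases ?_ (fun i' => ?_) i'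
    · intro h; exact absurd rfl h
    · intro _
      simpa using hUQ.mono_right (h1 i')
    · intro _
      simpa using (hUQ.mono_right (h1 i)).symm
    · intro h
      have h' : i ≠ i' := fun e => h (by rw [e])
      simpa using h5 i i' h'
  · intro i j
    refine Fin.cases ?_ (fun i => ?_) i
    · simpa using hUP.mono_right (h2 j)
    · simpa using h7 i j
  · intro i j
    refine Fin.cases ?_ (fun i => ?_) i
    · obtain ⟨y, hy⟩ := (h4 j).1
      obtain ⟨u, hu, hyu⟩ := hadj y (h2 j hy)
      exact ⟨u, by simpa using hu, y, hy, hyu.symm⟩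
    · simpa using h8 i j

/-- defective colouring of the subgraph induced on a set -/
def ColOn (G : SimpleGraph V) (P : Set V) (κ : Type*) (d : ℕ) : Prop :=
  ∃ c : V → κ, ∀ x ∈ P, {y | y ∈ P ∧ G.Adj x y ∧ c y = c x}.ncard ≤ d

lemma ColOn.map {P : Set V} {κ κ' : Type*} {d : ℕ} (h : ColOn G P κ d) (f : κ ↪ κ') :
    ColOn G P κ' d := by
  obtain ⟨c, hc⟩ := h
  refine ⟨fun v => f (c v), ?_⟩
  intro x hx
  have : {y | y ∈ P ∧ G.Adj x y ∧ f (c y) = f (c x)} = {y | y ∈ P ∧ G.Adj x y ∧ c y = c x} := by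
    ext y; simp
  rw [this]; exact hc x hx

section step2

variable (C U W : Set V)

/-- vertices of `C` reached from `U` without touching the neighbourhood of `W` -/
inductive Rch (G : SimpleGraph V) (C U W : Set V) : V → Prop
  | base (x u : V) : x ∈ C → u ∈ U → G.Adj x u → (∀ w ∈ W, ¬ G.Adj x w) → Rch G C U W x
  | step (x y : V) : Rch G C U W y → x ∈ C → G.Adj x y → (∀ w ∈ W, ¬ G.Adj x w) → Rch G C U W x

lemma Rch.mem {C U W : Set V} {x : V} (h : Rch G C U W x) : x ∈ C := by
  cases h <;> assumption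

lemma Rch.not_adj {C U W : Set V} {x : V} (h : Rch G C U W x) : ∀ w ∈ W, ¬ G.Adj x w := by
  cases h <;> assumption

lemma conn_Rch {C U W : Set V} (hU : Conn G U) : Conn G (U ∪ {x | Rch G C U W x}) := by
  refine ⟨hU.1.mono Set.subset_union_left, ?_⟩
  rintro T hT ⟨t, ht⟩ hc
  have key : ∀ x, Rch G C U W x → x ∈ T → ∃ u ∈ U, u ∈ T := by
    intro x hx
    induction hx with
    | base x u hxC hu hadj hW =>
      intro hxT
      exact ⟨u, hu, hc x hxT u (Or.inl hu) hadj⟩
    | step x y hy hxC hadj hW ih =>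
      intro hxT
      exact ih (hc x hxT y (Or.inr hy) hadj)
  have hUT : ∃ u ∈ U, u ∈ T := by
    rcases hT ht with h' | h'
    · exact ⟨t, h', ht⟩
    · exact key t h' ht
  obtain ⟨u, hu, huT⟩ := hUT
  have hUT : U ⊆ T := by
    have := hU.2 (T ∩ U) Set.inter_subset_right ⟨u, huT, hu⟩ (by
      rintro x ⟨hx, hxU⟩ y hy hxy
      exact ⟨hc x hx y (Or.inl hy) hxy, hy⟩)
    exact fun x hx => (this hx).1
  rintro x (hx | hx)
  · exact hUT hx
  · have hx' : Rch G C U W x := hx
    induction hx' with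
    | base x u hxC hu hadj hW =>
      exact hc u (hUT hu) x (Or.inr (Rch.base x u hxC hu hadj hW)) hadj.symm
    | step x y hy hxC hadj hW ih =>
      exact hc y (ih hy) x (Or.inr (Rch.step x y hy hxC hadj hW)) hadj.symm

end step2

/-- The two-root induction. -/
theorem two_roots [Finite V] {Q : Set V} {r s d : ℕ} {κ : Type*} [Nonempty κ]
    (hinner : ∀ P : Set V, P ⊆ Q → ¬ KM G P P r s → ColOn G P κ d)
    (hG : ¬ KM G Q Q (r + 2) s) :
    ∀ (n : ℕ) (C U W : Set V), C.ncard ≤ n → C ⊆ Q → U ⊆ Q → W ⊆ Q →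
      Disjoint C U → Disjoint C W → Disjoint U W →
      (U = ∅ ∨ Conn G U) → (W = ∅ ∨ Conn G W) → ∀ a b : Fin 3, a ≠ b →
      ∃ c : V → Fin 3 × κ,
        (∀ x ∈ C, ∀ u ∈ U, G.Adj x u → (c x).1 ≠ a) ∧
        (∀ x ∈ C, ∀ w ∈ W, G.Adj x w → (c x).1 ≠ b) ∧
        ∀ x ∈ C, {y | y ∈ C ∧ G.Adj x y ∧ c y = c x}.ncard ≤ d := by
  classical
  intro n
  induction n with
  | zero =>
    intro C U W hC hCQ hUQ hWQ hCU hCW hUW hU hW a b hab
    have hC0 : C = ∅ := by
      rw [Nat.le_zero, Set.ncard_eq_zero (Set.toFinite _)] at hC; exact hC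
    subst hC0
    obtain ⟨k⟩ := ‹Nonempty κ›
    exact ⟨fun _ => (0, k), by simp, by simp, by simp⟩
  | succ n ih =>
    intro C U W hC hCQ hUQ hWQ hCU hCW hUW hU hW a b hab
    obtain ⟨k0⟩ := ‹Nonempty κ›
    by_cases hC0 : C = ∅
    · subst hC0
      exact ⟨fun _ => (0, k0), by simp, by simp, by simp⟩
    obtain ⟨x0, hx0⟩ := Set.nonempty_iff_ne_empty.2 hC0
    have hsub : ∀ D : Set V, D ⊆ C → (∃ x ∈ C, x ∉ D) → D.ncard ≤ n := by
      rintro D hD ⟨x, hx, hxD⟩
      have : D.ncard < C.ncard :=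
        Set.ncard_lt_ncard ⟨hD, fun h => hxD (h hx)⟩ (Set.toFinite _)
      omega
    by_cases hWadj : ∃ x ∈ C, ∃ w ∈ W, G.Adj x w
    swap
    · -- `W` does not touch `C`
      push Not at hWadj
      obtain ⟨c, h1, h2, h3⟩ := ih (C \ {x0}) U {x0} (hsub _ Set.sdiff_subset ⟨x0, hx0, by simp⟩)
        (Set.sdiff_subset.trans hCQ) hUQ (by simpa using hCQ hx0)
        (hCU.mono_left Set.sdiff_subset) (by simp)
        (by
          rw [Set.disjoint_singleton_right]
          exact fun h => Set.disjoint_left.1 hCU hx0 h)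
        hU (Or.inr (Conn.singleton x0)) a b hab
      refine ⟨Function.update c x0 (b, k0), ?_, ?_, ?_⟩
      · intro x hx u hu hadj
        by_cases hxx : x = x0
        · subst hxx; simpa using hab.symm
        · rw [Function.update_of_ne hxx]
          exact h1 x ⟨hx, hxx⟩ u hu hadj
      · intro x hx w hw hadj
        exact absurd hadj (hWadj x hx w hw)
      · intro x hx
        by_cases hxx : x = x0
        · subst hxx
          have : {y | y ∈ C ∧ G.Adj x y ∧ Function.update c x (b, k0) y =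
              Function.update c x (b, k0) x} = ∅ := by
            ext y
            simp only [Set.mem_setOf_eq, Set.mem_empty_iff_false, iff_false, not_and]
            intro hy hadj hcol
            have hyx : y ≠ x := hadj.ne'
            rw [Function.update_of_ne hyx, Function.update_self] at hcol
            exact h2 y ⟨hy, hyx⟩ x rfl hadj.symm (by rw [hcol])
          rw [this]; simp
        · have : {y | y ∈ C ∧ G.Adj x y ∧ Function.update c x0 (b, k0) y =
              Function.update c x0 (b, k0) x} ⊆ {y | y ∈ C \ {x0} ∧ G.Adj x y ∧ c y = c x} := by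
            rintro y ⟨hy, hadj, hcol⟩
            rw [Function.update_of_ne hxx] at hcol
            by_cases hyx : y = x0
            · subst hyx
              rw [Function.update_self] at hcol
              exact absurd (by rw [← hcol]) (h2 x ⟨hx, hxx⟩ y rfl hadj)
            · rw [Function.update_of_ne hyx] at hcol
              exact ⟨⟨hy, hyx⟩, hadj, hcol⟩
          exact (Set.ncard_le_ncard this (Set.toFinite _)).trans (h3 x ⟨hx, hxx⟩)
    by_cases hUadj : ∃ x ∈ C, ∃ u ∈ U, G.Adj x u
    swap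
    · -- `U` does not touch `C`
      push Not at hUadj
      obtain ⟨c, h1, h2, h3⟩ := ih (C \ {x0}) {x0} W (hsub _ Set.sdiff_subset ⟨x0, hx0, by simp⟩)
        (Set.sdiff_subset.trans hCQ) (by simpa using hCQ hx0) hWQ
        (by simp) (hCW.mono_left Set.sdiff_subset)
        (by
          rw [Set.disjoint_singleton_left]
          exact fun h => Set.disjoint_left.1 hCW hx0 h)
        (Or.inr (Conn.singleton x0)) hW a b hab
      refine ⟨Function.update c x0 (a, k0), ?_, ?_, ?_⟩
      · intro x hx w hw hadj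
        exact absurd hadj (hUadj x hx w hw)
      · intro x hx u hu hadj
        by_cases hxx : x = x0
        · subst hxx; simpa using hab
        · rw [Function.update_of_ne hxx]
          exact h2 x ⟨hx, hxx⟩ u hu hadj
      · intro x hx
        by_cases hxx : x = x0
        · subst hxx
          have : {y | y ∈ C ∧ G.Adj x y ∧ Function.update c x (a, k0) y =
              Function.update c x (a, k0) x} = ∅ := by
            ext y
            simp only [Set.mem_setOf_eq, Set.mem_empty_iff_false, iff_false, not_and]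
            intro hy hadj hcol
            have hyx : y ≠ x := hadj.ne'
            rw [Function.update_of_ne hyx, Function.update_self] at hcol
            exact h1 y ⟨hy, hyx⟩ x rfl hadj.symm (by rw [hcol])
          rw [this]; simp
        · have : {y | y ∈ C ∧ G.Adj x y ∧ Function.update c x0 (a, k0) y =
              Function.update c x0 (a, k0) x} ⊆ {y | y ∈ C \ {x0} ∧ G.Adj x y ∧ c y = c x} := by
            rintro y ⟨hy, hadj, hcol⟩
            rw [Function.update_of_ne hxx] at hcol
            by_cases hyx : y = x0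
            · subst hyx
              rw [Function.update_self] at hcol
              exact absurd (by rw [← hcol]) (h1 x ⟨hx, hxx⟩ y rfl hadj)
            · rw [Function.update_of_ne hyx] at hcol
              exact ⟨⟨hy, hyx⟩, hadj, hcol⟩
          exact (Set.ncard_le_ncard this (Set.toFinite _)).trans (h3 x ⟨hx, hxx⟩)
    -- both roots touch `C`
    obtain ⟨xw, hxw, w1, hw1, hxw1⟩ := hWadj
    obtain ⟨xu, hxu, u1, hu1, hxu1⟩ := hUadj
    have hU' : Conn G U := by
      rcases hU with h | h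
      · rw [h] at hu1; exact absurd hu1 (Set.notMem_empty _)
      · exact h
    have hW' : Conn G W := by
      rcases hW with h | h
      · rw [h] at hw1; exact absurd hw1 (Set.notMem_empty _)
      · exact h
    set A : Set V := {x | Rch G C U W x} with hA
    set P : Set V := {p | p ∈ C ∧ p ∉ A ∧ ∃ u ∈ U ∪ A, G.Adj p u} with hP
    set E : Set V := {x | x ∈ C ∧ x ∉ A ∧ x ∉ P} with hE
    have hAC : A ⊆ C := fun x hx => Rch.mem hx
    have hPC : P ⊆ C := fun x hx => hx.1
    have hEC : E ⊆ C := fun x hx => hx.1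
    have hUA : Conn G (U ∪ A) := conn_Rch hU'
    have hPW : ∀ p ∈ P, ∃ w ∈ W, G.Adj p w := by
      rintro p ⟨hpC, hpA, u, hu, hadj⟩
      by_contra hcon
      push Not at hcon
      apply hpA
      rcases hu with hu | hu
      · exact Rch.base p u hpC hu hadj hcon
      · exact Rch.step p u hu hpC hadj hcon
    have hPU : ∀ p ∈ P, ∃ u ∈ U ∪ A, G.Adj p u := fun p hp => hp.2.2
    have hAP : Disjoint A P := Set.disjoint_left.2 fun x hx hp => hp.2.1 hx
    -- no biclique minor in P
    have hPKM : ¬ KM G P P r s := by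
      intro hK
      have h1 := hK.add hUA (by
        rw [Set.disjoint_union_left]
        exact ⟨(hCU.mono_left hPC).symm, hAP⟩) (by
        rw [Set.disjoint_union_left]
        exact ⟨(hCU.mono_left hPC).symm, hAP⟩) hPU
      have h2 := h1.add hW' (by
        rw [Set.disjoint_union_right, Set.disjoint_union_right]
        exact ⟨⟨hUW.symm, (hCW.mono_left hAC).symm⟩, (hCW.mono_left hPC).symm⟩)
        (hCW.mono_left hPC).symm hPW
      apply hG
      refine h2.mono ?_ (hPC.trans hCQ)
      exact Set.union_subset hWQ (Set.union_subset (Set.union_subset hUQ (hAC.trans hCQ))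
        (hPC.trans hCQ))
    obtain ⟨cP, hcP⟩ := hinner P (hPC.trans hCQ) hPKM
    obtain ⟨t, hta, htb⟩ : ∃ t : Fin 3, t ≠ a ∧ t ≠ b := by
      revert a b; decide
    -- side A
    obtain ⟨cA, a1, a2, a3⟩ := ih A U (W ∪ P)
      (hsub A hAC ⟨xw, hxw, fun h => Rch.not_adj h w1 hw1 hxw1⟩)
      (hAC.trans hCQ) hUQ (Set.union_subset hWQ (hPC.trans hCQ)) (hCU.mono_left hAC)
      (by
        rw [Set.disjoint_union_right]
        exact ⟨hCW.mono_left hAC, hAP⟩)
      (by
        rw [Set.disjoint_union_right]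
        exact ⟨hUW, (hCU.mono_left hPC).symm⟩)
      (Or.inr hU') (Or.inr (hW'.union hPW)) a t hta.symm
    -- side E
    have hEmiss : ∃ x ∈ C, x ∉ E := by
      refine ⟨xu, hxu, ?_⟩
      rintro ⟨_, h1, h2⟩
      exact h2 ⟨hxu, h1, u1, Or.inl hu1, hxu1⟩
    obtain ⟨cE, e1, e2, e3⟩ := ih E (U ∪ A ∪ P) W (hsub E hEC hEmiss)
      (hEC.trans hCQ)
      (Set.union_subset (Set.union_subset hUQ (hAC.trans hCQ)) (hPC.trans hCQ)) hWQ
      (by
        rw [Set.disjoint_union_right, Set.disjoint_union_right]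
        refine ⟨⟨hCU.mono_left hEC, ?_⟩, ?_⟩
        · exact Set.disjoint_left.2 fun x hx hx' => hx.2.1 hx'
        · exact Set.disjoint_left.2 fun x hx hx' => hx.2.2 hx')
      (hCW.mono_left hEC)
      (by
        rw [Set.disjoint_union_left, Set.disjoint_union_left]
        exact ⟨⟨hUW, hCW.mono_left hAC⟩, hCW.mono_left hPC⟩)
      (Or.inr (hUA.union hPU)) (Or.inr hW') t b htb
    -- no edges between A ∪ U and E
    have hEA : ∀ x ∈ E, ∀ u ∈ U ∪ A, ¬ G.Adj x u := by
      rintro x ⟨hxC, hxA, hxP⟩ u hu hadj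
      exact hxP ⟨hxC, hxA, u, hu, hadj⟩
    have hcover : ∀ x ∈ C, x ∈ A ∨ x ∈ P ∨ x ∈ E := by
      intro x hx
      by_cases h1 : x ∈ A
      · exact Or.inl h1
      · by_cases h2 : x ∈ P
        · exact Or.inr (Or.inl h2)
        · exact Or.inr (Or.inr ⟨hx, h1, h2⟩)
    let c : V → Fin 3 × κ := fun x => if x ∈ A then cA x else if x ∈ P then (t, cP x) else cE x
    have cA' : ∀ x ∈ A, c x = cA x := fun x hx => if_pos hx
    have cP' : ∀ x ∈ P, c x = (t, cP x) := by
      intro x hx
      have : x ∉ A := hx.2.1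
      simp only [c, if_neg this, if_pos hx]
    have cE' : ∀ x ∈ E, c x = cE x := by
      intro x hx
      simp only [c, if_neg hx.2.1, if_neg hx.2.2]
    refine ⟨c, ?_, ?_, ?_⟩
    · intro x hx u hu hadj
      rcases hcover x hx with h | h | h
      · rw [cA' x h]; exact a1 x h u hu hadj
      · rw [cP' x h]; exact hta
      · exact absurd hadj (hEA x h u (Or.inl hu))
    · intro x hx w hw hadj
      rcases hcover x hx with h | h | h
      · exact absurd hadj (Rch.not_adj h w hw)
      · rw [cP' x h]; exact htb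
      · rw [cE' x h]; exact e2 x h w hw hadj
    · intro x hx
      rcases hcover x hx with h | h | h
      · refine (Set.ncard_le_ncard ?_ (Set.toFinite _)).trans (a3 x h)
        rintro y ⟨hy, hadj, hcol⟩
        rw [cA' x h] at hcol
        rcases hcover y hy with h' | h' | h'
        · rw [cA' y h'] at hcol
          exact ⟨h', hadj, hcol⟩
        · rw [cP' y h'] at hcol
          exact absurd (by rw [← hcol]) (a2 x h y (Or.inr h') hadj)
        · exact absurd hadj.symm (hEA y h' x (Or.inr h))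
      · refine (Set.ncard_le_ncard ?_ (Set.toFinite _)).trans (hcP x h)
        rintro y ⟨hy, hadj, hcol⟩
        rw [cP' x h] at hcol
        rcases hcover y hy with h' | h' | h'
        · rw [cA' y h'] at hcol
          exact absurd (by rw [hcol]) (a2 y h' x (Or.inr h) hadj.symm)
        · rw [cP' y h', Prod.mk.injEq] at hcol
          exact ⟨h', hadj, hcol.2⟩
        · rw [cE' y h'] at hcol
          exact absurd (by rw [hcol]) (e1 y h' x (Or.inr h) hadj.symm)
      · refine (Set.ncard_le_ncard ?_ (Set.toFinite _)).trans (e3 x h)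
        rintro y ⟨hy, hadj, hcol⟩
        rw [cE' x h] at hcol
        rcases hcover y hy with h' | h' | h'
        · exact absurd hadj (hEA x h y (Or.inr h'))
        · rw [cP' y h'] at hcol
          exact absurd (by rw [← hcol]) (e1 x h y (Or.inr h') hadj)
        · rw [cE' y h'] at hcol
          exact ⟨h', hadj, hcol⟩

theorem step_two [Finite V] {Q : Set V} {r s d : ℕ} {κ : Type*} [Nonempty κ]
    (hinner : ∀ P : Set V, P ⊆ Q → ¬ KM G P P r s → ColOn G P κ d)
    (hG : ¬ KM G Q Q (r + 2) s) : ColOn G Q (Fin 3 × κ) d := by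
  obtain ⟨c, _, _, h⟩ := two_roots hinner hG Q.ncard Q ∅ ∅ le_rfl subset_rfl (by simp) (by simp)
    (by simp) (by simp) (by simp) (Or.inl rfl) (Or.inl rfl) 0 1 (by decide)
  exact ⟨c, h⟩

end Pool.Agent.Work.MP_768e99_co
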