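import Mathlib

set_option autoImplicit false

namespace Pool.Agent.Work.MP_768e99_co

/-- `H` is a minor of `G`, in branch-set form: the vertices of `H` are sent to pairwise disjoint
vertex sets of `G`, each inducing a connected (in particular nonempty) subgraph, such that
adjacent vertices of `H` have branch sets joined by an edge of `G`. -/
def IsMinor {W V : Type*} (H : SimpleGraph W) (G : SimpleGraph V) : Prop :=
  ∃ B : W → Set V, (∀ w, (G.induce (B w)).Connected) ∧
    (∀ w w', w ≠ w' → Disjoint (B w) (B w')) ∧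
    ∀ w w', H.Adj w w' → ∃ x ∈ B w, ∃ y ∈ B w', G.Adj x y

/-- `K_{r,s}` is a minor of `G`. -/
def HasBicliqueMinor {V : Type*} (G : SimpleGraph V) (r s : ℕ) : Prop :=
  IsMinor (completeBipartiteGraph (Fin r) (Fin s)) G

/-- `G` is `(k, d)*`-colourable: its vertices can be coloured with `k` colours so that every
vertex has at most `d` neighbours of its own colour. -/
def DefColorable {V : Type*} (G : SimpleGraph V) (k d : ℕ) : Prop :=
  ∃ c : V → Fin k, ∀ v, {w | G.Adj v w ∧ c w = c v}.ncard ≤ d

/-- The number of colour groups: `3 ^ ((r-1)/2)` for odd `r`, `2 * 3 ^ ((r-2)/2)` for even `r`: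
`1, 2, 3, 6, 9, 18, 27, ...` for `r = 1, 2, 3, ...`. -/
def gam (r : ℕ) : ℕ := if r % 2 = 1 then 3 ^ ((r - 1) / 2) else 2 * 3 ^ ((r - 2) / 2)

end Pool.Agent.Work.MP_768e99_co
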