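import Pool.Agent.Work.MP_768e99_co.Base

set_option autoImplicit false
set_option linter.unusedSectionVars false
set_option linter.unusedSimpArgs false
set_option linter.unusedVariables false

namespace Pool.Agent.Work.MP_768e99_co

variable {V : Type*} {G : SimpleGraph V}

lemma gam_pos (r : ℕ) : 0 < gam r := by
  unfold gam; split <;> positivity

lemma gam_add_two (r : ℕ) (hr : 1 ≤ r) : gam (r + 2) = 3 * gam r := by
  unfold gam
  by_cases h : r % 2 = 1
  · have h' : (r + 2) % 2 = 1 := by omega
    rw [if_pos h, if_pos h']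
    have : (r + 2 - 1) / 2 = (r - 1) / 2 + 1 := by omega
    rw [this, pow_succ]; ring
  · have h' : ¬ (r + 2) % 2 = 1 := by omega
    rw [if_neg h, if_neg h']
    have : (r + 2 - 2) / 2 = (r - 2) / 2 + 1 := by omega
    rw [this, pow_succ]; ring

lemma colOn_prod {Q : Set V} {a b d : ℕ} (h : ColOn G Q (Fin a × Fin b) d) :
    ColOn G Q (Fin (a * b)) d :=
  h.map finProdFinEquiv.toEmbedding

theorem colOn_main [Finite V] {s d m : ℕ} (hm : 0 < m) (hms : s ≤ m * (d + 1)) :
    ∀ (r : ℕ), 1 ≤ r → ∀ Q : Set V, ¬ KM G Q Q r s → ColOn G Q (Fin (gam r * m)) d := by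
  intro r
  induction r using Nat.strong_induction_on with
  | _ r ih =>
    intro hr Q hQ
    rcases Nat.lt_or_ge r 3 with h3 | h3
    · interval_cases r
      · have := base_one (G := G) hm hms hQ
        have hg : gam 1 * m = m := by simp [gam]
        rw [hg]; exact this
      · haveI : Nonempty (Fin m) := ⟨⟨0, hm⟩⟩
        have h2 := step_one (G := G) (Q := Q) (r := 1) (s := s) (d := d) (κ := Fin m)
          (fun P _ hP => base_one hm hms hP) hQ
        have hg : gam 2 * m = 2 * m := by simp [gam]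
        rw [hg]
        exact colOn_prod h2
    · obtain ⟨q, rfl⟩ : ∃ q, r = q + 2 := ⟨r - 2, by omega⟩
      have hq : 1 ≤ q := by omega
      haveI : Nonempty (Fin (gam q * m)) := ⟨⟨0, Nat.mul_pos (gam_pos q) hm⟩⟩
      have h2 := step_two (G := G) (Q := Q) (r := q) (s := s) (d := d) (κ := Fin (gam q * m))
        (fun P _ hP => ih q (by omega) hq P hP) hQ
      rw [gam_add_two q hq, mul_assoc]
      exact colOn_prod h2

lemma not_KM_of_not_minor {r s : ℕ} (h : ¬ HasBicliqueMinor G r s) :
    ¬ KM G Set.univ Set.univ r s := by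
  rintro ⟨A, B, -, -, h3, h4, h5, h6, h7, h8⟩
  apply h
  refine ⟨Sum.elim A B, ?_, ?_, ?_⟩
  · rintro (i | j)
    · exact (h3 i).connected
    · exact (h4 j).connected
  · rintro (i | j) (i' | j') hne
    · exact h5 i i' fun e => hne (by rw [e])
    · exact h7 i j'
    · exact (h7 i' j).symm
    · exact h6 j j' fun e => hne (by rw [e])
  · rintro (i | j) (i' | j') hadj
    · simp at hadj
    · exact h8 i j'
    · obtain ⟨x, hx, y, hy, hxy⟩ := h8 i' j
      exact ⟨y, hy, x, hx, hxy.symm⟩
    · simp at hadj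

lemma DefColorable.mono {k k' d : ℕ} (h : DefColorable G k d) (hk : k ≤ k') :
    DefColorable G k' d := by
  obtain ⟨c, hc⟩ := h
  refine ⟨fun v => Fin.castLE hk (c v), ?_⟩
  intro v
  have : {w | G.Adj v w ∧ Fin.castLE hk (c w) = Fin.castLE hk (c v)} =
      {w | G.Adj v w ∧ c w = c v} := by
    ext w; simp
  rw [this]; exact hc v

theorem defColorable_main [Finite V] (r s d : ℕ) (hr : 1 ≤ r) (hs : 1 ≤ s)
    (h : ¬ HasBicliqueMinor G r s) : DefColorable G (gam r * ((s + d) / (d + 1))) d := by
  have hm : 0 < (s + d) / (d + 1) := Nat.div_pos (by omega) (by omega)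
  have hms : s ≤ (s + d) / (d + 1) * (d + 1) := by
    have := Nat.div_add_mod (s + d) (d + 1)
    have h2 := Nat.mod_lt (s + d) (show 0 < d + 1 by omega)
    nlinarith
  obtain ⟨c, hc⟩ := colOn_main (G := G) hm hms r hr Set.univ (not_KM_of_not_minor h)
  refine ⟨c, fun v => ?_⟩
  have := hc v (Set.mem_univ v)
  simpa using this

end Pool.Agent.Work.MP_768e99_co
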